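import Mathlib
import Pool.Agent.Helper64.JohnsonEven4

/-!
# Cospectral mates of the graphs `J_{2,4,...}(2k,k)`

For every `k ≥ 4` the graph `J_{2,4,...}(2k,k)` (vertices: the `k`-subsets of a `2k`-set, two
distinct ones adjacent iff they meet in a positive even number `≤ k - 1` of points) is not
determined by its spectrum.
-/

namespace Pool.Agent.Results.MP_b101b2_co.EvenJohnsonNDS

open Pool.Agent.Helper64

/-- The spectrum of a finite graph: the multiset of eigenvalues of its adjacency matrix over `ℝ`
(the roots of the characteristic polynomial, with multiplicities). -/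
noncomputable def graphSpectrum {V : Type} [Fintype V] (G : SimpleGraph V) : Multiset ℝ := by
  classical exact (G.adjMatrix ℝ).charpoly.roots

/-- `G` is not determined by its spectrum: some finite graph `H` has the same spectrum but is not
isomorphic to `G`. -/
def NotDeterminedBySpectrum {V : Type} [Fintype V] (G : SimpleGraph V) : Prop :=
  ∃ (W : Type) (_ : Fintype W) (H : SimpleGraph W),
    graphSpectrum H = graphSpectrum G ∧ IsEmpty (G ≃g H)

theorem charpoly_inst {V : Type} (f1 f2 : Fintype V) (d1 d2 : DecidableEq V) (M : Matrix V V ℝ) :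
    @Matrix.charpoly ℝ _ V d1 f1 M = @Matrix.charpoly ℝ _ V d2 f2 M := by
  have e1 : d1 = d2 := Subsingleton.elim _ _
  have e2 : f1 = f2 := Subsingleton.elim _ _
  subst e1 e2
  rfl

/-- For every `k ≥ 4` the graph `J_{2,4,...}(2k,k)` has a cospectral mate. -/
theorem result (k : ℕ) (hk : 4 ≤ k) :
    NotDeterminedBySpectrum (genJohnson (evenSet k) (2 * k) k) := by
  classical
  have key : ∃ H : SimpleGraph (KSub (2 * k) k),
      (∀ (_ : DecidableRel H.Adj) (_ : DecidableRel (genJohnson (evenSet k) (2 * k) k).Adj),
        (H.adjMatrix ℝ).charpoly = ((genJohnson (evenSet k) (2 * k) k).adjMatrix ℝ).charpoly) ∧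
      IsEmpty (genJohnson (evenSet k) (2 * k) k ≃g H) := by
    rcases Nat.lt_or_ge 4 k with h | h
    · exact exists_mate h
    · have : k = 4 := le_antisymm h hk
      subst this
      exact exists_mate4
  obtain ⟨H, h1, h2⟩ := key
  refine ⟨KSub (2 * k) k, inferInstance, H, ?_, h2⟩
  have h3 := h1 (fun a b => Classical.propDecidable _) (fun a b => Classical.propDecidable _)
  unfold graphSpectrum
  apply congrArg Polynomial.roots
  rw [charpoly_inst _ inferInstance _ inferInstance, h3]
  exact charpoly_inst _ _ _ _ _

end Pool.Agent.Results.MP_b101b2_co.EvenJohnsonNDS
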